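import Mathlib

namespace Pool.Agent.Results.MP_a30120_gt.Counter
open EuclideanGeometry Real

abbrev E3 := EuclideanSpace ℝ (Fin 3)

/-- The face of the tetrahedron `V` opposite to the vertex `V i`. -/
def face (V : Fin 4 → E3) (i : Fin 4) : Set E3 := convexHull ℝ (V '' {j | j ≠ i})

/-- Break point `p` inside the edge `V a V b`, reached from `x` in the face `a b c` and left towards `y`
in the face `a b d`: the surface angles on the two sides are both at most `π`. -/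
def EdgeBreak (V : Fin 4 → E3) (x p y : E3) : Prop :=
  ∃ a b c d : Fin 4, [a, b, c, d].Nodup ∧ p ∈ openSegment ℝ (V a) (V b) ∧
    x ∈ face V d ∧ y ∈ face V c ∧ x ∉ segment ℝ (V a) (V b) ∧ y ∉ segment ℝ (V a) (V b) ∧
    ∠ x p (V a) + ∠ (V a) p y ≤ π ∧ ∠ x p (V b) + ∠ (V b) p y ≤ π

/-- Break point `p = V a`, with both neighbours `x, y` in the face `a b c`: the surface angles on the
two sides are `α = ∠ x p y` and `θ - α`, where `θ` is the total angle at `V a`; both are at most `π`. -/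
def VertexBreak (V : Fin 4 → E3) (x p y : E3) : Prop :=
  ∃ a b c d : Fin 4, [a, b, c, d].Nodup ∧ p = V a ∧ x ∈ face V d ∧ y ∈ face V d ∧
    ∠ x p y ≤ π ∧ (∠ (V b) p (V c) + ∠ (V c) p (V d) + ∠ (V d) p (V b)) - ∠ x p y ≤ π

/-- The closed polygon with break points `P`, as a set. -/
def trace {n : ℕ} [NeZero n] (P : Fin n → E3) : Set E3 := ⋃ k, segment ℝ (P k) (P (k + 1))

/-- `P` is a simple closed polygon on the surface of the tetrahedron `V` (each side lies in a face)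
satisfying the quasigeodesic angle condition at every break point. -/
def SimpleQG (V : Fin 4 → E3) {n : ℕ} [NeZero n] (P : Fin n → E3) : Prop :=
  3 ≤ n ∧ (∀ k, P k ≠ P (k + 1)) ∧ (∀ k, ∃ i, segment ℝ (P k) (P (k + 1)) ⊆ face V i) ∧
  (∀ k l, k ≠ l → ∀ x ∈ segment ℝ (P k) (P (k + 1)), x ∈ segment ℝ (P l) (P (l + 1)) →
    (l = k + 1 ∧ x = P l) ∨ (k = l + 1 ∧ x = P k)) ∧
  ∀ k, EdgeBreak V (P k) (P (k + 1)) (P (k + 1 + 1)) ∨ VertexBreak V (P k) (P (k + 1)) (P (k + 1 + 1))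

lemma ang (p q r : E3) :
    ∠ p q r = arccos (((p 0 - q 0) * (r 0 - q 0) + (p 1 - q 1) * (r 1 - q 1) + (p 2 - q 2) * (r 2 - q 2))
      / √(((p 0 - q 0) ^ 2 + (p 1 - q 1) ^ 2 + (p 2 - q 2) ^ 2) *
        ((r 0 - q 0) ^ 2 + (r 1 - q 1) ^ 2 + (r 2 - q 2) ^ 2))) := by
  unfold EuclideanGeometry.angle InnerProductGeometry.angle
  rw [Real.sqrt_mul (by positivity), EuclideanSpace.norm_eq, EuclideanSpace.norm_eq]
  simp only [vsub_eq_sub, PiLp.inner_apply, Fin.sum_univ_three, PiLp.sub_apply, Real.norm_eq_abs, sq_abs,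
    RCLike.inner_apply, conj_trivial]
  congr 2; ring

lemma supp {a b A B : ℝ} (hA : 0 < A) (hB : 0 < B) (h : a ^ 2 * B = b ^ 2 * A) (hs : a * b ≤ 0) :
    arccos (a / √A) + arccos (b / √B) ≤ π := by
  have sA := Real.sqrt_pos.2 hA
  have sB := Real.sqrt_pos.2 hB
  have h1 : (a / √A) ^ 2 = (b / √B) ^ 2 := by
    rw [div_pow, div_pow, Real.sq_sqrt hA.le, Real.sq_sqrt hB.le, div_eq_div_iff hA.ne' hB.ne', h]
  have h2 : (a / √A) * (b / √B) ≤ 0 := by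
    rw [div_mul_div_comm]; exact div_nonpos_of_nonpos_of_nonneg hs (by positivity)
  have h3 : b / √B = -(a / √A) := by
    rcases sq_eq_sq_iff_eq_or_eq_neg.1 h1 with h | h
    · rw [h] at h2 ⊢
      have : b / √B = 0 := by nlinarith [mul_self_nonneg (b / √B)]
      rw [this, neg_zero]
    · rw [h, neg_neg]
  rw [h3, Real.arccos_neg]; linarith

lemma seg {p q x : E3} : x ∈ segment ℝ p q ↔ ∃ t : ℝ, 0 ≤ t ∧ t ≤ 1 ∧ x 0 = p 0 + t * (q 0 - p 0) ∧
    x 1 = p 1 + t * (q 1 - p 1) ∧ x 2 = p 2 + t * (q 2 - p 2) := by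
  rw [segment_eq_image']
  constructor
  · rintro ⟨t, ⟨h0, h1⟩, rfl⟩
    exact ⟨t, h0, h1, by simp, by simp, by simp⟩
  · rintro ⟨t, h0, h1, e0, e1, e2⟩
    refine ⟨t, ⟨h0, h1⟩, ?_⟩
    ext i; fin_cases i <;> simp [e0, e1, e2]

lemma oseg {p q x : E3} (t : ℝ) (h0 : 0 < t) (h1 : t < 1) (e0 : x 0 = p 0 + t * (q 0 - p 0))
    (e1 : x 1 = p 1 + t * (q 1 - p 1)) (e2 : x 2 = p 2 + t * (q 2 - p 2)) : x ∈ openSegment ℝ p q := by
  rw [openSegment_eq_image']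
  refine ⟨t, ⟨h0, h1⟩, ?_⟩
  ext i; fin_cases i <;> simp [e0, e1, e2]

lemma e3 {p q : E3} (e0 : p 0 = q 0) (e1 : p 1 = q 1) (e2 : p 2 = q 2) : p = q := by
  ext i; fin_cases i <;> simp [e0, e1, e2]

lemma inface (V : Fin 4 → E3) (i a b : Fin 4) (ha : a ≠ i) (hb : b ≠ i) {x : E3}
    (hx : x ∈ segment ℝ (V a) (V b)) : x ∈ face V i :=
  (convex_convexHull ℝ _).segment_subset (subset_convexHull ℝ _ (Set.mem_image_of_mem V ha))
    (subset_convexHull ℝ _ (Set.mem_image_of_mem V hb)) hx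

noncomputable def V0 : Fin 4 → E3 := ![!₂[6, 6, 6], !₂[6, -6, -6], !₂[-6, 6, -6], !₂[-6, -6, 6]]
noncomputable def P0 : Fin 8 → E3 := ![!₂[6, 6, 6], !₂[-6, 3, -3], !₂[-2, 2, -6], !₂[6, 0, 0],
  !₂[-2, -2, 6], !₂[-6, -3, 3], !₂[6, -6, -6], !₂[-6, 0, 0]]

lemma m0 : P0 0 ∈ segment ℝ (V0 0) (V0 0) := by rw [seg]; exact ⟨0, by simp [V0, P0]⟩
lemma m1 : P0 1 ∈ segment ℝ (V0 2) (V0 3) := by rw [seg]; exact ⟨1/4, by simp [V0, P0]; norm_num⟩
lemma m2 : P0 2 ∈ segment ℝ (V0 1) (V0 2) := by rw [seg]; exact ⟨2/3, by simp [V0, P0]; norm_num⟩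
lemma m3 : P0 3 ∈ segment ℝ (V0 0) (V0 1) := by rw [seg]; exact ⟨1/2, by simp [V0, P0]; norm_num⟩
lemma m4 : P0 4 ∈ segment ℝ (V0 0) (V0 3) := by rw [seg]; exact ⟨2/3, by simp [V0, P0]; norm_num⟩
lemma m5 : P0 5 ∈ segment ℝ (V0 2) (V0 3) := by rw [seg]; exact ⟨3/4, by simp [V0, P0]; norm_num⟩
lemma m6 : P0 6 ∈ segment ℝ (V0 1) (V0 1) := by rw [seg]; exact ⟨0, by simp [V0, P0]⟩
lemma m7 : P0 7 ∈ segment ℝ (V0 2) (V0 3) := by rw [seg]; exact ⟨1/2, by simp [V0, P0]; norm_num⟩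

lemma f0 (i : Fin 4) (h : 0 ≠ i) : P0 0 ∈ face V0 i := inface V0 i _ _ h h m0
lemma f1 (i : Fin 4) (h : 2 ≠ i) (h' : 3 ≠ i) : P0 1 ∈ face V0 i := inface V0 i _ _ h h' m1
lemma f2 (i : Fin 4) (h : 1 ≠ i) (h' : 2 ≠ i) : P0 2 ∈ face V0 i := inface V0 i _ _ h h' m2
lemma f3 (i : Fin 4) (h : 0 ≠ i) (h' : 1 ≠ i) : P0 3 ∈ face V0 i := inface V0 i _ _ h h' m3
lemma f4 (i : Fin 4) (h : 0 ≠ i) (h' : 3 ≠ i) : P0 4 ∈ face V0 i := inface V0 i _ _ h h' m4
lemma f5 (i : Fin 4) (h : 2 ≠ i) (h' : 3 ≠ i) : P0 5 ∈ face V0 i := inface V0 i _ _ h h' m5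
lemma f6 (i : Fin 4) (h : 1 ≠ i) : P0 6 ∈ face V0 i := inface V0 i _ _ h h m6
lemma f7 (i : Fin 4) (h : 2 ≠ i) (h' : 3 ≠ i) : P0 7 ∈ face V0 i := inface V0 i _ _ h h' m7

lemma sub (i : Fin 4) {x y : E3} (hx : x ∈ face V0 i) (hy : y ∈ face V0 i) : segment ℝ x y ⊆ face V0 i :=
  (convex_convexHull ℝ _).segment_subset hx hy

lemma simple (k l : Fin 8) (hkl : k < l) (x : E3) (h1 : x ∈ segment ℝ (P0 k) (P0 (k + 1)))
    (h2 : x ∈ segment ℝ (P0 l) (P0 (l + 1))) : (l = k + 1 ∧ x = P0 l) ∨ (k = l + 1 ∧ x = P0 k) := by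
  rw [seg] at h1 h2
  obtain ⟨s, s0, s1, a0, a1, a2⟩ := h1
  obtain ⟨t, t0, t1, b0, b1, b2⟩ := h2
  fin_cases k <;> fin_cases l <;> first
    | exact absurd hkl (by decide)
    | (simp [P0] at a0 a1 a2 b0 b1 b2
       first
        | (exfalso; linarith)
        | (left; refine ⟨by decide, e3 ?_ ?_ ?_⟩ <;> simp [P0] <;> linarith)
        | (right; refine ⟨by decide, e3 ?_ ?_ ?_⟩ <;> simp [P0] <;> linarith))

lemma third : arccos (1 / 2) = π / 3 := by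
  rw [← Real.cos_pi_div_three, Real.arccos_cos] <;> linarith [pi_pos]

lemma eb (x p y : E3) (a b c d : Fin 4) (hn : [a, b, c, d].Nodup) (t : ℝ) (hx : x ∈ face V0 d)
    (hy : y ∈ face V0 c) (h : (0 < t ∧ t < 1 ∧ p 0 = V0 a 0 + t * (V0 b 0 - V0 a 0) ∧
      p 1 = V0 a 1 + t * (V0 b 1 - V0 a 1) ∧ p 2 = V0 a 2 + t * (V0 b 2 - V0 a 2)) ∧
      x ∉ segment ℝ (V0 a) (V0 b) ∧ y ∉ segment ℝ (V0 a) (V0 b) ∧
      ∠ x p (V0 a) + ∠ (V0 a) p y ≤ π ∧ ∠ x p (V0 b) + ∠ (V0 b) p y ≤ π) : EdgeBreak V0 x p y :=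
  ⟨a, b, c, d, hn, oseg t h.1.1 h.1.2.1 h.1.2.2.1 h.1.2.2.2.1 h.1.2.2.2.2, hx, hy, h.2⟩

lemma breaks (k : Fin 8) : EdgeBreak V0 (P0 k) (P0 (k + 1)) (P0 (k + 1 + 1)) ∨
    VertexBreak V0 (P0 k) (P0 (k + 1)) (P0 (k + 1 + 1)) := by
  have vb : ∀ (x y : E3) (a b c d : Fin 4), [a, b, c, d].Nodup → x ∈ face V0 d → y ∈ face V0 d →
      ∠ (V0 b) (V0 a) (V0 c) + ∠ (V0 c) (V0 a) (V0 d) + ∠ (V0 d) (V0 a) (V0 b) = π →
      VertexBreak V0 x (V0 a) y := fun x y a b c d hn hx hy h =>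
    ⟨a, b, c, d, hn, rfl, hx, hy, angle_le_pi _ _ _, by linarith [angle_nonneg x (V0 a) y]⟩
  fin_cases k
  · refine Or.inl (eb (P0 0) (P0 1) (P0 2) 2 3 0 1 (by decide) (1/4) (f0 _ (by decide))
      (f2 _ (by decide) (by decide)) ⟨by simp [V0, P0]; norm_num, ?_, ?_, ?_, ?_⟩)
    all_goals first
      | (rw [seg]; rintro ⟨t, t0, t1, a0, a1, a2⟩; simp [V0, P0] at a0 a1 a2 <;> linarith)
      | (rw [ang, ang]; apply supp <;> simp [V0, P0] <;> norm_num)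
  · refine Or.inl (eb (P0 1) (P0 2) (P0 3) 1 2 3 0 (by decide) (2/3) (f1 _ (by decide) (by decide))
      (f3 _ (by decide) (by decide)) ⟨by simp [V0, P0]; norm_num, ?_, ?_, ?_, ?_⟩)
    all_goals first
      | (rw [seg]; rintro ⟨t, t0, t1, a0, a1, a2⟩; simp [V0, P0] at a0 a1 a2 <;> linarith)
      | (rw [ang, ang]; apply supp <;> simp [V0, P0] <;> norm_num)
  · refine Or.inl (eb (P0 2) (P0 3) (P0 4) 0 1 2 3 (by decide) (1/2) (f2 _ (by decide) (by decide))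
      (f4 _ (by decide) (by decide)) ⟨by simp [V0, P0]; norm_num, ?_, ?_, ?_, ?_⟩)
    all_goals first
      | (rw [seg]; rintro ⟨t, t0, t1, a0, a1, a2⟩; simp [V0, P0] at a0 a1 a2 <;> linarith)
      | (rw [ang, ang]; apply supp <;> simp [V0, P0] <;> norm_num)
  · refine Or.inl (eb (P0 3) (P0 4) (P0 5) 0 3 1 2 (by decide) (2/3) (f3 _ (by decide) (by decide))
      (f5 _ (by decide) (by decide)) ⟨by simp [V0, P0]; norm_num, ?_, ?_, ?_, ?_⟩)
    all_goals first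
      | (rw [seg]; rintro ⟨t, t0, t1, a0, a1, a2⟩; simp [V0, P0] at a0 a1 a2 <;> linarith)
      | (rw [ang, ang]; apply supp <;> simp [V0, P0] <;> norm_num)
  · refine Or.inl (eb (P0 4) (P0 5) (P0 6) 2 3 0 1 (by decide) (3/4) (f4 _ (by decide) (by decide))
      (f6 _ (by decide)) ⟨by simp [V0, P0]; norm_num, ?_, ?_, ?_, ?_⟩)
    all_goals first
      | (rw [seg]; rintro ⟨t, t0, t1, a0, a1, a2⟩; simp [V0, P0] at a0 a1 a2 <;> linarith)
      | (rw [ang, ang]; apply supp <;> simp [V0, P0] <;> norm_num)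
  · refine Or.inr (vb (P0 5) (P0 7) 1 2 3 0 (by decide) (f5 _ (by decide) (by decide))
      (f7 _ (by decide) (by decide)) ?_)
    simp only [ang]; simp [V0]; norm_num; linarith [third]
  · refine Or.inl (eb (P0 6) (P0 7) (P0 0) 2 3 1 0 (by decide) (1/2) (f6 _ (by decide))
      (f0 _ (by decide)) ⟨by simp [V0, P0]; norm_num, ?_, ?_, ?_, ?_⟩)
    all_goals first
      | (rw [seg]; rintro ⟨t, t0, t1, a0, a1, a2⟩; simp [V0, P0] at a0 a1 a2 <;> linarith)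
      | (rw [ang, ang]; apply supp <;> simp [V0, P0] <;> norm_num)
  · refine Or.inr (vb (P0 7) (P0 1) 0 2 3 1 (by decide) (f7 _ (by decide) (by decide))
      (f1 _ (by decide) (by decide)) ?_)
    simp only [ang]; simp [V0]; norm_num; linarith [third]

lemma notin (x : E3) (h : x = !₂[-6, 6, -6] ∨ x = !₂[-6, -6, 6] ∨ x = !₂[6, 3, 3]) : x ∉ trace P0 := by
  intro hx
  obtain ⟨k, hk⟩ := Set.mem_iUnion.1 hx
  rw [seg] at hk
  obtain ⟨t, t0, t1, a0, a1, a2⟩ := hk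
  rcases h with rfl | rfl | rfl <;> fin_cases k <;> simp [P0] at a0 a1 a2 <;> linarith

theorem result : ∃ (V : Fin 4 → E3) (P : Fin 8 → E3), AffineIndependent ℝ V ∧ SimpleQG V P ∧
    {i | V i ∈ trace P} = {0, 1} ∧ ¬ segment ℝ (V 0) (V 1) ⊆ trace P := by
  refine ⟨V0, P0, ?_, ⟨by norm_num, ?_, ?_, ?_, breaks⟩, ?_, ?_⟩
  · rw [affineIndependent_iff_linearIndependent_vsub ℝ _ (0 : Fin 4),
      ← linearIndependent_equiv (finSuccAboveEquiv (0 : Fin 4)), Fintype.linearIndependent_iff]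
    intro g hg
    have h0 := congrArg (fun v : E3 => v 0) hg
    have h1 := congrArg (fun v : E3 => v 1) hg
    have h2 := congrArg (fun v : E3 => v 2) hg
    simp [Fin.sum_univ_three, finSuccAboveEquiv, V0] at h0 h1 h2
    intro i; fin_cases i <;> simp <;> linarith
  · intro k h
    have h1 := congrArg (fun v : E3 => v 1) h
    fin_cases k <;> simp [P0] at h1 <;> linarith
  · intro k
    fin_cases k
    · exact ⟨1, sub _ (f0 _ (by decide)) (f1 _ (by decide) (by decide))⟩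
    · exact ⟨0, sub _ (f1 _ (by decide) (by decide)) (f2 _ (by decide) (by decide))⟩
    · exact ⟨3, sub _ (f2 _ (by decide) (by decide)) (f3 _ (by decide) (by decide))⟩
    · exact ⟨2, sub _ (f3 _ (by decide) (by decide)) (f4 _ (by decide) (by decide))⟩
    · exact ⟨1, sub _ (f4 _ (by decide) (by decide)) (f5 _ (by decide) (by decide))⟩
    · exact ⟨0, sub _ (f5 _ (by decide) (by decide)) (f6 _ (by decide))⟩
    · exact ⟨0, sub _ (f6 _ (by decide)) (f7 _ (by decide) (by decide))⟩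
    · exact ⟨1, sub _ (f7 _ (by decide) (by decide)) (f0 _ (by decide))⟩
  · intro k l hkl x h1 h2
    rcases lt_or_gt_of_ne hkl with h | h
    · exact simple k l h x h1 h2
    · exact (simple l k h x h2 h1).symm
  · ext i
    fin_cases i
    · simp only [Set.mem_setOf_eq]
      exact ⟨fun _ => by simp, fun _ => Set.mem_iUnion.2 ⟨0, left_mem_segment ℝ _ _⟩⟩
    · simp only [Set.mem_setOf_eq]
      exact ⟨fun _ => by simp, fun _ => Set.mem_iUnion.2 ⟨6, left_mem_segment ℝ _ _⟩⟩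
    · simp only [Set.mem_setOf_eq]
      exact ⟨fun h => absurd h (notin _ (Or.inl rfl)), fun h => by simp at h⟩
    · simp only [Set.mem_setOf_eq]
      exact ⟨fun h => absurd h (notin _ (Or.inr (Or.inl rfl))), fun h => by simp at h⟩
  · intro h
    refine notin _ (Or.inr (Or.inr rfl)) (h ?_)
    rw [seg]; exact ⟨1/4, by simp [V0]; norm_num⟩

end Pool.Agent.Results.MP_a30120_gt.Counter
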